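import Pool.Agent.R351.GD.J.Tup

/-!
# The modular Schanuel conjecture with derivatives: relations of growing degree at integral invariants

Let `j` be the modular invariant and let `z_1, …, z_k` be points of the upper half-plane for which the numbers
`n_i = j(z_i)` are integers. Unless one of them is a CM point or two of them are equivalent under `GL_2^+(ℚ)`, the modular
Schanuel conjecture with derivatives predicts that the `3 k` numbers `z_i`, `j'(z_i)`, `j''(z_i)` are algebraically
independent.

We prove: for all `k` and `q` there is a number `C` such that for all `δ`, all complex numbers `w_1, …, w_q` and all `T ≥ 1`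
the number of the tuples `(n_1, …, n_k)` of nonzero integers with `|n_i| ≤ T` for which there are points `z_i` with
`j(z_i) = n_i` and a nontrivial relation of degree at most `δ`, whatever the height of its coefficients, between
`2 π i, w_1, …, w_q` and the `3 k` numbers `z_i`, `j'(z_i)`, `j''(z_i)`, over any number field of degree at most `δ`, is at most

  `C T^(k - 1 / (δ + 2)^C)`.

Nontrivial means that the polynomial does not become zero by the substitution of `2 π i, w_1, …, w_q`. Here `δ` is arbitrary,
and so for almost all tuples in the box `[-T, T]^k` there is no relation of degree at most `(log T)^c`, for every `c < 1 / C`: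
the degree of the relations and the degree of the number field may tend to infinity with the size of the box.

In the theorem `MP_ede373_nt.IntegralInvariants` the degree is fixed and the dependence of the number `c' > 0` in the
bound `O(T^(k - c'))` and of the implied constant on the degree is not specified.

The proof follows the starting library (`Pool.Agent.Y120`, project of helper120; the parts on integral invariants by
helper309, helper340 and others) for the formulas for the numbers `z_i`, `j'(z_i)`, `j''(z_i)` by the four G-functions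
`F`, `θF`, `G`, `θG` at `1 / n_i`, and replaces the theorem on the values of G-functions by one with polynomial bounds in the
degree: the monomials of degree at most `Δ` in the G-functions of one shift form a G-system with a constant exponential in
`Δ` only, and the elimination of the constants and of the other coordinates by Hilbert functions costs a polynomial in `δ`.
-/

set_option autoImplicit false

namespace Pool.Agent.Results.MP_ede373_nt.GrowingDegreeTuples

/-- the normalised Eisenstein series of weight `4` -/
noncomputable def E4 (τ : ℂ) : ℂ :=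
  1 + 240 * ∑' m : ℕ, ((ArithmeticFunction.sigma 3 (m + 1) : ℕ) : ℂ) *
    Complex.exp (2 * (Real.pi : ℂ) * Complex.I * ((m : ℂ) + 1) * τ)

/-- the normalised Eisenstein series of weight `6` -/
noncomputable def E6 (τ : ℂ) : ℂ :=
  1 - 504 * ∑' m : ℕ, ((ArithmeticFunction.sigma 5 (m + 1) : ℕ) : ℂ) *
    Complex.exp (2 * (Real.pi : ℂ) * Complex.I * ((m : ℂ) + 1) * τ)

/-- the modular invariant `j = q⁻¹ + 744 + 196884 q + ⋯` -/
noncomputable def J (τ : ℂ) : ℂ := 1728 * E4 τ ^ 3 / (E4 τ ^ 3 - E6 τ ^ 2)

/-- the numbers `z`, `j'(z)`, `j''(z)` -/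
noncomputable def numbers (z : ℂ) : Fin 3 → ℂ := ![z, deriv J z, deriv (deriv J) z]

/-- The numbers `2 π i, w_1, …, w_q` and `numbers (z_1), …, numbers (z_k)`. -/
noncomputable def values {q k : ℕ} (w : Fin q → ℂ) (z : Fin k → ℂ) : Option (Fin q) ⊕ Fin k × Fin 3 → ℂ :=
  Sum.elim (fun o => o.elim (2 * Real.pi * Complex.I) w) fun v => numbers (z v.1) v.2

/-- The numbers `2 π i, w_1, …, w_q` and `3 k` variables. -/
noncomputable def generic {q k : ℕ} (w : Fin q → ℂ) :
    Option (Fin q) ⊕ Fin k × Fin 3 → MvPolynomial (Fin k × Fin 3) ℂ :=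
  Sum.elim (fun o => MvPolynomial.C (o.elim (2 * Real.pi * Complex.I) w)) MvPolynomial.X

/-- For some points `z_1, …, z_k` of the upper half-plane with `j(z_i) = n_i` there is a polynomial `P` of degree at most
`δ` over a number field of degree at most `δ` which vanishes at `2 π i, w_1, …, w_q` and the `3 k` numbers `z_i`, `j'(z_i)`,
`j''(z_i)` and does not become zero by the substitution of `2 π i, w_1, …, w_q`. -/
def Exceptional {q k : ℕ} (δ : ℕ) (w : Fin q → ℂ) (n : Fin k → ℤ) : Prop :=
  ∃ z : Fin k → ℂ, (∀ i, 0 < (z i).im ∧ J (z i) = n i) ∧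
    ∃ K : IntermediateField ℚ ℂ, FiniteDimensional ℚ K ∧ Module.finrank ℚ K ≤ δ ∧
      ∃ P : MvPolynomial (Option (Fin q) ⊕ Fin k × Fin 3) K, P.totalDegree ≤ δ ∧
        MvPolynomial.aeval (values w z) P = 0 ∧ MvPolynomial.aeval (generic (k := k) w) P ≠ 0

lemma J_eq : J = Pool.Agent.TH21.MS.jj := by
  have h4 : E4 = Pool.Agent.TH21.MS.E4 := funext Pool.Agent.Y120.J.E4_same
  have h6 : E6 = Pool.Agent.TH21.MS.E6 := funext Pool.Agent.Y120.J.E6_same
  funext τ
  unfold J Pool.Agent.TH21.MS.jj
  rw [h4, h6]

lemma values_eq {q k : ℕ} (w : Fin q → ℂ) (z : Fin k → ℂ) :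
    (Sum.elim (Pool.Agent.Y120.K.wo w) fun v : Fin k × Fin 3 => Pool.Agent.Y120.J.jt (z v.1) v.2) = values w z := by
  unfold values
  funext v
  rcases v with o | v
  · rw [Sum.elim_inl, Sum.elim_inl]
    rcases o with _ | o <;> rfl
  · rw [Sum.elim_inr, Sum.elim_inr]
    unfold numbers Pool.Agent.Y120.J.jt
    rw [J_eq]

open Classical in
/-- For all `k`, `q` there is `C` such that for all `δ`, `w_1, …, w_q` and `T ≥ 1` at most `C T^(k - 1 / (δ + 2)^C)` tuples
of nonzero integers of absolute value at most `T` are exceptional. -/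
theorem result (k q : ℕ) : ∃ C : ℕ, ∀ (δ : ℕ) (w : Fin q → ℂ) (T : ℕ), 1 ≤ T →
    (((Fintype.piFinset fun _ : Fin k => Finset.Icc (-(T : ℤ)) T).filter fun n =>
      (∀ i, n i ≠ 0) ∧ Exceptional δ w n).card : ℝ) ≤ C * (T : ℝ) ^ ((k : ℝ) - 1 / ((δ : ℝ) + 2) ^ C) := by
  obtain ⟨C, hC⟩ := Pool.Agent.R351.GD.jtuples k q
  refine ⟨C, fun δ w T hT => le_trans ?_ (hC δ w T hT)⟩
  refine Nat.cast_le.2 (Finset.card_le_card fun n hn => ?_)
  obtain ⟨hn1, hn0, z, hz, K, hK, hKd, P, hP, hP0, hne⟩ := Finset.mem_filter.1 hn
  refine Finset.mem_filter.2 ⟨hn1, hn0, fun i => ⟨z i, (hz i).1⟩, fun i => ?_, K, hK, hKd, P, hP, ?_, ?_⟩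
  · have h1 := (hz i).2
    rw [J_eq] at h1
    exact h1
  · rw [← values_eq] at hP0
    exact hP0
  · intro h0
    apply hne
    have h3 : (generic (k := k) w) = Sum.elim (fun j => MvPolynomial.C (Pool.Agent.Y120.K.wo w j)) MvPolynomial.X := by
      funext v
      rcases v with o | v
      · rcases o with _ | o <;> rfl
      · rfl
    rw [h3]
    exact h0

end Pool.Agent.Results.MP_ede373_nt.GrowingDegreeTuples
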