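import Pool.Agent.R437.Met.Cf
import Pool.Agent.Results.MP_ede373_nt.ArbitraryCurves

/-!
# The modular Schanuel conjecture with derivatives on analytic curves, at the algebraic points near a given point

For `j = 1, …, n` let `τ_ji` (`i ≤ p_j`, `p_j ≥ 1`) be nonconstant analytic functions on a connected open set `U_j` with
values in the upper half-plane, the `j(τ_ji)` pairwise algebraically independent over `ℂ`, and `w_jk` (`k ≤ s_j`)
analytic functions no nontrivial integral combination of which is constant. Nothing needs to be algebraic. Then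
`3 p_j + s_j` fixed functions among the `4 p_j + 2 s_j` functions

  `τ_ji`, `j(τ_ji)`, `j'(τ_ji)`, `j''(τ_ji)`, `w_jk`, `exp(w_jk)`

have the following property. Let `F` be a number field in `ℂ`, `c_0, c_1, …` any complex numbers and `η > 0`. For all `ξ`
in `U_1 × ⋯ × U_n` outside a set of Hausdorff dimension at most `2 [F : ℚ] (n - 1) / η`, the `∑ (3 p_j + s_j)` numbers at
the points `x_1, …, x_n` of `F` of height at most `T`, `T` large, with `|ξ_j - x_j| ≤ C T ^ (-η)` satisfy no relation,
not even an approximate one, of degree at most `d` whose coefficients are linear combinations of `c_0, …, c_(g-1)` with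
coefficients in `F` of height at most `T ^ A`. For `n = 1` the exceptional set has dimension zero, for every `η > 0`.
For `s_j = 0` this is the number `3 p_j` of independent numbers which is predicted by the modular Schanuel conjecture
with derivatives. The file `ArbitraryCurves` of this pool bounds the number of the exceptional tuples.
-/

set_option autoImplicit false

open NumberField

namespace Pool.Agent.Results.MP_ede373_nt.NearEveryPoint

open Pool.Agent.R437.Met
open ArbitraryCurves (Name value Curve)

/-- The elements of the number field `F` which are quotients of two integers of `F` all of whose conjugates have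
absolute value at most `T`. -/
def Points (F : Type) [Field F] [NumberField F] (T : ℝ) : Set F :=
  {x | ∃ a b : 𝓞 F, b ≠ 0 ∧ (∀ φ : F →+* ℂ, ‖φ a‖ ≤ T ∧ ‖φ b‖ ≤ T) ∧ x = a / b}

/-- There is a polynomial `P` of degree at most `d` in each variable, with coefficients of the form `∑ c_i ι(a_i)`,
where the `a_i` are integers of `F` all of whose conjugates have absolute value at most `T ^ A`, such that the value
of `P` at the numbers `v j (ι (x j)) i` is at most `T ^ (-B)` times the absolute value of some nonzero coefficient of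
`P`. -/
def Related {n g : ℕ} {J : Fin n → Type} (v : ∀ j, ℂ → J j → ℂ) (F : Type) [Field F] [NumberField F]
    (ι : F →+* ℂ) (c : Fin g → ℂ) (d : ℕ) (A B T : ℝ) (x : Fin n → F) : Prop :=
  ∃ P : MvPolynomial (Σ j, J j) ℂ, (∀ y, P.degreeOf y ≤ d) ∧
    (∀ s, ∃ a : Fin g → 𝓞 F, (∀ i (φ : F →+* ℂ), ‖φ (a i)‖ ≤ T ^ A) ∧ P.coeff s = ∑ i, c i * ι (a i)) ∧
    ∃ s₀, P.coeff s₀ ≠ 0 ∧
      ‖MvPolynomial.aeval (fun y : Σ j, J j => v y.1 (ι (x y.1)) y.2) P‖ ≤ T ^ (-B) * ‖P.coeff s₀‖

/-- **Points near a given point.** For `n ≥ 1` curves over `U_1, …, U_n` (equal or different) one can choose, for each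
`j`, `3 p_j + s_j` different functions `e_j` among the `4 p_j + 2 s_j` functions of the `j`-th curve, such that for
every number field `F` with an embedding `ι` in `ℂ`, every sequence `c` of complex numbers and every `η > 0` there is a
set `E` of Hausdorff dimension at most `2 [F : ℚ] (n - 1) / η` such that for all `ξ` in `U_1 × ⋯ × U_n` outside `E` and
all `g`, `d`, `A` there is `B` such that for all `C` and all large `T`: for the `n`-tuples `x` of elements of `F` of
height at most `T` with `|ξ_j - ι(x_j)| ≤ C T ^ (-η)` for all `j` the values of the chosen functions at the `x_j`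
satisfy no relation (in the sense of `Related`) with coefficients that are linear combinations of the first `g` of the
numbers `c`. -/
theorem result {n : ℕ} (hn : 1 ≤ n) {p s : Fin n → ℕ} (U : Fin n → Set ℂ) (τ : ∀ j, Fin (p j) → ℂ → ℂ)
    (w : ∀ j, Fin (s j) → ℂ → ℂ) (hU : ∀ j, Curve (U j) (τ j) (w j)) :
    ∃ e : ∀ j, Fin (3 * p j + s j) → Name (p j) (s j), (∀ j, Function.Injective (e j)) ∧
      ∀ (F : Type) [Field F] [NumberField F] (ι : F →+* ℂ) (c : ℕ → ℂ) (η : ℝ), 0 < η →
      ∃ E : Set (Fin n → ℂ), dimH E ≤ ENNReal.ofReal (2 * (Module.finrank ℚ F : ℝ) * ((n : ℝ) - 1) / η) ∧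
        ∀ ξ : Fin n → ℂ, (∀ j, ξ j ∈ U j) → ξ ∉ E → ∀ (g d : ℕ) (A : ℝ), ∃ B : ℝ, ∀ C : ℝ, ∃ T₁ : ℝ,
          ∀ T : ℝ, T₁ ≤ T → ∀ x : Fin n → F,
            (∀ j, x j ∈ Points F T ∧ ‖ξ j - ι (x j)‖ ≤ C * T ^ (-η)) →
              ¬ Related (fun j z k => value (τ j) (w j) z (e j k)) F ι (fun i : Fin g => c i) d A B T x := by
  obtain ⟨e, he, H⟩ := ArbitraryCurves.result U τ w hU
  refine ⟨e, he, fun F _ _ ι c η hη => ?_⟩
  exact Cf.near n hn F (fun (x : Fin n → F) (y : Σ j, Fin (3 * p j + s j)) =>
      value (τ y.1) (w y.1) (ι (x y.1)) (e y.1 y.2)) ι c U (fun j => (hU j).isOpen)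
    (by
      intro K hK hKS g d A ε hε
      obtain ⟨B, C, T₀, h⟩ := H K hK hKS (Module.finrank ℚ F) g d A ε hε
      exact ⟨B, C, T₀, ⋃ j, K j, fun T hT => h F le_rfl ι (fun i : Fin g => c i) T hT⟩)
    η hη

end Pool.Agent.Results.MP_ede373_nt.NearEveryPoint
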