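import Pool.Agent.R349.Short2
import Pool.Agent.Y776.AxJ.Fun

/-!
# The modular Schanuel conjecture with derivatives and exponentials on analytic curves: a bounded number of exceptions
# in small discs

Let `τ_1, …, τ_p` (`p ≥ 1`) be nonconstant analytic functions on a connected open set `U` with values in the
upper half-plane, such that `j(τ_i)` and `j(τ_k)` are algebraically independent over `ℂ` for `i ≠ k`, and let
`w_1, …, w_s` (`s ≥ 0`) be analytic functions on `U` no nontrivial combination of which with integral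
coefficients is constant. There is no other condition on these functions. We show that `3 p + s` fixed functions among
the `4 p + 2 s` functions

  `τ_i`, `j(τ_i)`, `j'(τ_i)`, `j''(τ_i)`, `w_k`, `exp(w_k)`

satisfy no approximate relation of bounded degree and height `T ^ A` at algebraic points of height at most `T`, with **at
most `C` exceptions in each disc of radius `T ^ (-δ)`**, for all number fields of degree at most `m`, for `δ > 0`
arbitrary: let `X_1, …, X_n` be finite sets of elements `x` of a number field `F` of degree at most `m`, of height at most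
`T`, with images in compact sets `K_j`, each of the `X_j` of diameter at most `T ^ (-δ)`; for instance all elements of
`X_j` can be fractions with one fixed denominator `T`. For `n` curves and the tuples of `X_1 × … × X_n` all but
`C ∑_j ∏_(i ≠ j) |X_i|` tuples are good, and there is a good one if all `|X_j| > C`. Good means that the
`∑ (3 p_j + s_j)` numbers satisfy no approximate relation of degree at most `d` and height at most `T ^ A` whose
coefficients are combinations of given complex numbers `ξ_1, …, ξ_g`, and together with `π` no relation over `F`. For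
`s = 0` this is the number `3 p` of independent numbers which is predicted by the modular Schanuel conjecture with
derivatives, and for `s > 0` the number predicted by it together with Schanuel's conjecture.

In `MP_ede373_nt.ArbitraryCurves` there are `C T ^ ε` exceptional points among all points of height at most `T`, which
says nothing about a small disc or about fractions with one fixed denominator; this is used nowhere here.

The proof uses an Ax-Schanuel theorem for these functions, relative to arbitrary countable fields of constants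
(`Pool.Agent.Y776.AxJ.exists_loc`), and a determinant method for small discs (`Pool.Agent.R349.Gen.shortS`).
-/

set_option autoImplicit false

open NumberField
open Pool.Agent

namespace Pool.Agent.Results.MP_ede373_nt.SmallDiscs

/-- The lattice `ℤ + ℤ τ`. -/
noncomputable def lattice (τ : ℂ) (h : 0 < τ.im) : PeriodPair where
  ω₁ := 1
  ω₂ := τ
  indep := (Y685.LL ⟨τ, h⟩).indep

/-- The modular invariant `j = 1728 g₂³ / (g₂³ - 27 g₃²)` on the upper half-plane. -/
noncomputable def j (τ : ℂ) : ℂ :=
  if h : 0 < τ.im then 1728 * (lattice τ h).g₂ ^ 3 / ((lattice τ h).g₂ ^ 3 - 27 * (lattice τ h).g₃ ^ 2) else 0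

/-- The names of the functions. -/
inductive Name (p s : ℕ) : Type
  | tau : Fin p → Name p s
  | j : Fin p → Name p s
  | dj : Fin p → Name p s
  | ddj : Fin p → Name p s
  | w : Fin s → Name p s
  | expw : Fin s → Name p s

/-- The values `τ_i(z)`, `j(τ_i(z))`, `j'(τ_i(z))`, `j''(τ_i(z))` (complex derivatives of `j`), `w_k(z)` and
`exp(w_k(z))`. -/
noncomputable def value {p s : ℕ} (τ : Fin p → ℂ → ℂ) (w : Fin s → ℂ → ℂ) (z : ℂ) : Name p s → ℂ
  | Name.tau i => τ i z
  | Name.j i => j (τ i z)
  | Name.dj i => deriv j (τ i z)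
  | Name.ddj i => deriv (deriv j) (τ i z)
  | Name.w k => w k z
  | Name.expw k => Complex.exp (w k z)

/-- An analytic curve in `ℍ^p × ℂ^s`. -/
structure Curve (U : Set ℂ) {p s : ℕ} (τ : Fin p → ℂ → ℂ) (w : Fin s → ℂ → ℂ) : Prop where
  pos : 0 < p
  isOpen : IsOpen U
  isPreconnected : IsPreconnected U
  nonempty : U.Nonempty
  analytic : ∀ i, AnalyticOnNhd ℂ (τ i) U
  im_pos : ∀ i, ∀ z ∈ U, 0 < (τ i z).im
  nonconstant : ∀ i c, ∃ z ∈ U, τ i z ≠ c
  /-- two of the functions `j(τ_i)` are algebraically independent over `ℂ` -/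
  independent : ∀ i k, i ≠ k → ∀ P : MvPolynomial (Fin 2) ℂ, P ≠ 0 →
    ∃ z ∈ U, MvPolynomial.eval ![j (τ i z), j (τ k z)] P ≠ 0
  analytic_w : ∀ k, AnalyticOnNhd ℂ (w k) U
  /-- no nontrivial combination with integral coefficients of the `w_k` is constant -/
  linear : ∀ (m : Fin s → ℤ) (c : ℂ), (∀ z ∈ U, ∑ k, (m k : ℂ) * w k z = c) → m = 0

/-- The polynomials of degree at most `d` in each variable, all of whose coefficients are of the form `∑ ξ_i ι(c_i)`, where
the `c_i` are integers of the number field `F` all of whose conjugates have absolute value at most `H`. -/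
def Admissible {σ : Type} {g : ℕ} (F : Type) [Field F] [NumberField F] (ι : F →+* ℂ) (ξ : Fin g → ℂ) (d : ℕ) (H : ℝ)
    (P : MvPolynomial σ ℂ) : Prop :=
  (∀ y, P.degreeOf y ≤ d) ∧
    ∀ s, ∃ c : Fin g → 𝓞 F, (∀ i (φ : F →+* ℂ), ‖φ (c i)‖ ≤ H) ∧ P.coeff s = ∑ i, ξ i * ι (c i)

/-- The complex numbers `v` are good: every admissible polynomial takes at them a value which is at least `δ` times each of
its coefficients, and `π` and these numbers satisfy no relation `Q = 0` with a nonzero polynomial `Q` of degree at most `d`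
in each variable whose coefficients are integers of `F` with conjugates of absolute value at most `H`. -/
def Good {σ : Type} {g : ℕ} (F : Type) [Field F] [NumberField F] (ι : F →+* ℂ) (ξ : Fin g → ℂ) (d : ℕ)
    (H δ : ℝ) (v : σ → ℂ) : Prop :=
  (∀ P : MvPolynomial σ ℂ, Admissible F ι ξ d H P → ∀ s, δ * ‖P.coeff s‖ ≤ ‖MvPolynomial.aeval v P‖) ∧
  ∀ Q : MvPolynomial (Option σ) (𝓞 F), Q ≠ 0 → (∀ x, Q.degreeOf x ≤ d) →
    (∀ s (φ : F →+* ℂ), ‖φ ((Q.coeff s : 𝓞 F) : F)‖ ≤ H) →
    MvPolynomial.eval₂ (ι.comp (algebraMap (𝓞 F) F)) (fun o => o.elim (Real.pi : ℂ) v) Q ≠ 0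

/-- The element `x` of `F` is a quotient of integers all of whose conjugates have absolute value at most `T`. -/
def HeightLe (F : Type) [Field F] [NumberField F] (T : ℝ) (x : F) : Prop :=
  ∃ a b : 𝓞 F, b ≠ 0 ∧ (∀ φ : F →+* ℂ, ‖φ a‖ ≤ T ∧ ‖φ b‖ ≤ T) ∧ x = a / b

theorem j_eq {τ : ℂ} (h : 0 < τ.im) : j τ = Y776.jf τ := by
  have h1 : Y685.LC τ = lattice τ h := by
    rw [Y685.LC, UpperHalfPlane.ofComplex_apply_of_im_pos h]
    rfl
  rw [j, dif_pos h, Y776.jf, h1]

theorem j_ev {τ : ℂ} (h : 0 < τ.im) : j =ᶠ[nhds τ] Y776.jf := by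
  filter_upwards [Y776.AxJ.isOpen_H.mem_nhds h] with σ hσ
  exact j_eq hσ

theorem dj_eq {τ : ℂ} (h : 0 < τ.im) : deriv j τ = deriv Y776.jf τ := (j_ev h).deriv_eq

theorem dj_ev {τ : ℂ} (h : 0 < τ.im) : deriv j =ᶠ[nhds τ] deriv Y776.jf := by
  filter_upwards [Y776.AxJ.isOpen_H.mem_nhds h] with σ hσ
  exact dj_eq hσ

theorem ddj_eq {τ : ℂ} (h : 0 < τ.im) : deriv (deriv j) τ = deriv (deriv Y776.jf) τ := (dj_ev h).deriv_eq

theorem fmj {U : Set ℂ} {p s : ℕ} {τ : Fin p → ℂ → ℂ} {w : Fin s → ℂ → ℂ} (h : Curve U τ w) :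
    Y776.AxJ.Fmj U τ w where
  op := h.isOpen
  conn := h.isPreconnected
  ne := h.nonempty
  ta := h.analytic
  im := h.im_pos
  nc := h.nonconstant
  ji := by
    intro i k hik P hP
    by_contra hne
    obtain ⟨z, hz, hz0⟩ := h.independent i k hik P hne
    apply hz0
    rw [← hP z hz]
    congr 2
    funext m
    fin_cases m
    · exact j_eq (h.im_pos i z hz)
    · exact j_eq (h.im_pos k z hz)
  wa := h.analytic_w
  wi := h.linear

/-- the name of a function -/
def nm {p s : ℕ} : Y776.AxJ.Nj p s → Name p s := fun o => match o with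
  | Sum.inl (i, 0) => Name.tau i
  | Sum.inl (i, 1) => Name.j i
  | Sum.inl (i, 2) => Name.dj i
  | Sum.inl (i, 3) => Name.ddj i
  | Sum.inr (Sum.inl k) => Name.w k
  | Sum.inr (Sum.inr k) => Name.expw k

/-- the function with a given name -/
def mn {p s : ℕ} : Name p s → Y776.AxJ.Nj p s := fun o => match o with
  | Name.tau i => Sum.inl (i, 0)
  | Name.j i => Sum.inl (i, 1)
  | Name.dj i => Sum.inl (i, 2)
  | Name.ddj i => Sum.inl (i, 3)
  | Name.w k => Sum.inr (Sum.inl k)
  | Name.expw k => Sum.inr (Sum.inr k)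

theorem nm_inj {p s : ℕ} : Function.Injective (nm (p := p) (s := s)) := by
  have h : Function.LeftInverse (mn (p := p) (s := s)) nm := by
    rintro (⟨i, m⟩ | k | k)
    · fin_cases m <;> rfl
    · rfl
    · rfl
  exact h.injective

theorem value_eq {U : Set ℂ} {p s : ℕ} {τ : Fin p → ℂ → ℂ} {w : Fin s → ℂ → ℂ} (h : Curve U τ w) {z : ℂ}
    (hz : z ∈ U) (o : Y776.AxJ.Nj p s) : value τ w z (nm o) = Y776.AxJ.yj τ w o z := by
  rcases o with ⟨i, m⟩ | k | k
  · fin_cases m
    · rfl
    · exact j_eq (h.im_pos i z hz)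
    · exact dj_eq (h.im_pos i z hz)
    · exact ddj_eq (h.im_pos i z hz)
  · rfl
  · rfl

/-- For `n` curves (equal or different) one can choose, for each `j`, `3 p_j + s_j` different functions `e_j`
among the `4 p_j + 2 s_j` functions of the `j`-th curve with the property stated above, for all compact sets `K_j`
contained in `U_j`, and all `m`, `g`, `d`, `A` and `δ > 0`. -/
theorem result {n : ℕ} {p s : Fin n → ℕ} (U : Fin n → Set ℂ) (τ : ∀ j, Fin (p j) → ℂ → ℂ)
    (w : ∀ j, Fin (s j) → ℂ → ℂ) (hU : ∀ j, Curve (U j) (τ j) (w j)) :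
    ∃ e : ∀ j, Fin (3 * p j + s j) → Name (p j) (s j), (∀ j, Function.Injective (e j)) ∧
      ∀ K : Fin n → Set ℂ, (∀ j, IsCompact (K j)) → (∀ j, K j ⊆ U j) → ∀ (m g d : ℕ) (A δ : ℝ), 0 < δ →
        ∃ (B : ℝ) (C : ℕ) (T₀ : ℝ), ∀ (F : Type) [Field F] [NumberField F], Module.finrank ℚ F ≤ m →
          ∀ (ι : F →+* ℂ) (ξ : Fin g → ℂ) (T : ℝ), T₀ ≤ T → ∀ X : Fin n → Finset F,
            (∀ j, ∀ x ∈ X j, ι x ∈ K j ∧ HeightLe F T x) → (∀ j, ∀ x ∈ X j, ∀ y ∈ X j, ‖ι x - ι y‖ ≤ T ^ (-δ)) →
            (({x : Fin n → F | (∀ j, x j ∈ X j) ∧ ¬ Good F ι ξ d (T ^ A) (T ^ (-B))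
              (fun y : Σ j, Fin (3 * p j + s j) => value (τ y.1) (w y.1) (ι (x y.1)) (e y.1 y.2))}.ncard : ℝ) ≤
              C * ∑ j, ∏ i ∈ Finset.univ.erase j, ((X i).card : ℝ)) ∧
            ((∀ j, C < (X j).card) → ∃ x : Fin n → F, (∀ j, x j ∈ X j) ∧ Good F ι ξ d (T ^ A) (T ^ (-B))
              (fun y : Σ j, Fin (3 * p j + s j) => value (τ y.1) (w y.1) (ι (x y.1)) (e y.1 y.2))) := by
  classical
  choose e he hL using fun j => Y776.AxJ.exists_loc (fmj (hU j)) (hU j).pos
  refine ⟨fun j k => nm (e j k), fun j => nm_inj.comp (he j), ?_⟩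
  intro K hK hKU m g d A δ hδ
  have hev : ∀ (k : Fin n) (i : Fin (3 * p k + s k)), ∀ t ∈ U k,
      (fun z => value (τ k) (w k) z (nm (e k i))) =ᶠ[nhds t] Y776.AxJ.yj (τ k) (w k) (e k i) := by
    intro k i t ht
    filter_upwards [(hU k).isOpen.mem_nhds ht] with z hz
    exact value_eq (hU k) hz _
  exact Pool.Agent.R349.Gen.shortS m n g d (κ := fun k => Fin (3 * p k + s k)) (fun k => (hU k).isOpen)
    (fun k => (hU k).isPreconnected) (fun k i z => value (τ k) (w k) z (nm (e k i)))
    (fun k i t ht => (Y776.AxJ.yj_an (fmj (hU k)) (e k i) t ht).congr (hev k i t ht).symm)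
    (fun k t ht => by
      intro P hP
      refine hL k t ht P ?_
      have hall : ∀ᶠ z in nhds t, ∀ i : Fin (3 * p k + s k), value (τ k) (w k) z (nm (e k i)) =
          Y776.AxJ.yj (τ k) (w k) (e k i) z := by
        rw [Filter.eventually_all]
        exact fun i => hev k i t ht
      filter_upwards [hP, hall] with z hz hz'
      rw [← hz]
      congr 2
      funext o
      cases o with
      | none => rfl
      | some i => exact (hz' i).symm) K hK hKU A δ hδ

end Pool.Agent.Results.MP_ede373_nt.SmallDiscs
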